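import Pool.Agent.Helper13.PLM.Placement
import Pool.Agent.Helper93.MEI.Bar

/-!
# Project MEI (M2): consequences of the placement theorem (row PL-D)

`Placed K a c`: the regular unit tetrahedron `a` is placed with respect to `K` (the supporting
planes orthogonal to the edges pass through the vertices) and close to the points `c i` of `K`.
-/

set_option autoImplicit false

namespace Helper66.MEI

open Set Metric Finset MeasureTheory Helper80.CW Helper82.CW Helper14.CW Helper93.MEI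
open scoped RealInnerProductSpace

/-- placed tetrahedron with four nearby points of `K` -/
structure Placed (K : Set E3) (a c : Fin 4 → E3) : Prop where
  reg : ∀ i j, i ≠ j → dist (a i) (a j) = 1
  mem : ∀ i, c i ∈ K
  sup : ∀ i j, i ≠ j → supp K (a i - a j) = ⟪a i, a i - a j⟫
  pl : ∀ x ∈ K, Pl a x
  nonneg : ∀ i j, 0 ≤ ⟪a i - c i, a i - a j⟫
  sum_le : ∑ i, ∑ j, ⟪a i - c i, a i - a j⟫ ≤ 0.1535

/-- **Placement**, packaged. -/
theorem exists_placed {K : Set E3} (hK : IsCompact K) (hconv : Convex ℝ K) (hw : Width1 K)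
    (hvol : volume K ≤ ENNReal.ofReal VM) : ∃ a c : Fin 4 → E3, Placed K a c := by
  obtain ⟨a, c, h1, h2, h3, h4, h5, h6⟩ := Helper13.PLM.placement hK hconv hw hvol
  exact ⟨a, c, h1, h2, h3, h4, h5, h6⟩

section gram
variable {a : Fin 4 → E3} (h : Gram4 (al a))
include h

/-- the depth of a point below the supporting plane at `a i` with normal `a i - a j`, in
barycentric coordinates -/
theorem depth_bar {i j : Fin 4} (hij : i ≠ j) (x : E3) :
    ⟪a i - x, a i - a j⟫ = (1 - bar a i x + bar a j x) / 2 := by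
  rw [inner_edge (a := a) (a i) x, bar_vertex_self h, bar_vertex_ne h hij.symm]
  ring

/-- the sum of the depths -/
theorem depth_sum (i : Fin 4) (x : E3) : ∑ j, ⟪a i - x, a i - a j⟫ = 2 * (1 - bar a i x) := by
  have hs := bar_sum h x
  have hz : ⟪a i - x, a i - a i⟫ = (0 : ℝ) := by rw [sub_self, inner_zero_right]
  rw [Fin.sum_univ_four]
  fin_cases i
  · show ⟪a 0 - x, a 0 - a 0⟫ + ⟪a 0 - x, a 0 - a 1⟫ + ⟪a 0 - x, a 0 - a 2⟫ + ⟪a 0 - x, a 0 - a 3⟫ =
      2 * (1 - bar a 0 x)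
    rw [sub_self, inner_zero_right, depth_bar h (by decide), depth_bar h (by decide),
      depth_bar h (by decide)]
    linarith
  · show ⟪a 1 - x, a 1 - a 0⟫ + ⟪a 1 - x, a 1 - a 1⟫ + ⟪a 1 - x, a 1 - a 2⟫ + ⟪a 1 - x, a 1 - a 3⟫ =
      2 * (1 - bar a 1 x)
    rw [sub_self, inner_zero_right, depth_bar h (by decide), depth_bar h (by decide),
      depth_bar h (by decide)]
    linarith
  · show ⟪a 2 - x, a 2 - a 0⟫ + ⟪a 2 - x, a 2 - a 1⟫ + ⟪a 2 - x, a 2 - a 2⟫ + ⟪a 2 - x, a 2 - a 3⟫ =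
      2 * (1 - bar a 2 x)
    rw [sub_self, inner_zero_right, depth_bar h (by decide), depth_bar h (by decide),
      depth_bar h (by decide)]
    linarith
  · show ⟪a 3 - x, a 3 - a 0⟫ + ⟪a 3 - x, a 3 - a 1⟫ + ⟪a 3 - x, a 3 - a 2⟫ + ⟪a 3 - x, a 3 - a 3⟫ =
      2 * (1 - bar a 3 x)
    rw [sub_self, inner_zero_right, depth_bar h (by decide), depth_bar h (by decide),
      depth_bar h (by decide)]
    linarith

/-- the distance from the vertex `a i` in terms of the depths `α_j = ⟪a i - x, a i - a j⟫`: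
`|a i - x|² = 2 ∑ α_j² - (∑ α_j)² / 2` -/
theorem norm_sq_depth (i : Fin 4) (x : E3) : ‖a i - x‖ ^ 2 =
    2 * ∑ j, ⟪a i - x, a i - a j⟫ ^ 2 - (∑ j, ⟪a i - x, a i - a j⟫) ^ 2 / 2 := by
  have hs := bar_sum h x
  rw [depth_sum h, norm_sub_sq_bar h, Fin.sum_univ_four]
  fin_cases i
  · show 1 / 2 * ((bar a 0 (a 0) - bar a 0 x) ^ 2 + (bar a 1 (a 0) - bar a 1 x) ^ 2 +
      (bar a 2 (a 0) - bar a 2 x) ^ 2 + (bar a 3 (a 0) - bar a 3 x) ^ 2) =
      2 * (⟪a 0 - x, a 0 - a 0⟫ ^ 2 + ⟪a 0 - x, a 0 - a 1⟫ ^ 2 + ⟪a 0 - x, a 0 - a 2⟫ ^ 2 +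
        ⟪a 0 - x, a 0 - a 3⟫ ^ 2) - (2 * (1 - bar a 0 x)) ^ 2 / 2
    rw [sub_self, inner_zero_right, depth_bar h (by decide), depth_bar h (by decide),
      depth_bar h (by decide), bar_vertex_self h, bar_vertex_ne h (by decide),
      bar_vertex_ne h (by decide), bar_vertex_ne h (by decide)]
    have e : bar a 3 x = 1 - bar a 0 x - bar a 1 x - bar a 2 x := by linarith
    rw [e]; ring
  · show 1 / 2 * ((bar a 0 (a 1) - bar a 0 x) ^ 2 + (bar a 1 (a 1) - bar a 1 x) ^ 2 +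
      (bar a 2 (a 1) - bar a 2 x) ^ 2 + (bar a 3 (a 1) - bar a 3 x) ^ 2) =
      2 * (⟪a 1 - x, a 1 - a 0⟫ ^ 2 + ⟪a 1 - x, a 1 - a 1⟫ ^ 2 + ⟪a 1 - x, a 1 - a 2⟫ ^ 2 +
        ⟪a 1 - x, a 1 - a 3⟫ ^ 2) - (2 * (1 - bar a 1 x)) ^ 2 / 2
    rw [sub_self, inner_zero_right, depth_bar h (by decide), depth_bar h (by decide),
      depth_bar h (by decide), bar_vertex_self h, bar_vertex_ne h (by decide),
      bar_vertex_ne h (by decide), bar_vertex_ne h (by decide)]
    have e : bar a 3 x = 1 - bar a 0 x - bar a 1 x - bar a 2 x := by linarith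
    rw [e]; ring
  · show 1 / 2 * ((bar a 0 (a 2) - bar a 0 x) ^ 2 + (bar a 1 (a 2) - bar a 1 x) ^ 2 +
      (bar a 2 (a 2) - bar a 2 x) ^ 2 + (bar a 3 (a 2) - bar a 3 x) ^ 2) =
      2 * (⟪a 2 - x, a 2 - a 0⟫ ^ 2 + ⟪a 2 - x, a 2 - a 1⟫ ^ 2 + ⟪a 2 - x, a 2 - a 2⟫ ^ 2 +
        ⟪a 2 - x, a 2 - a 3⟫ ^ 2) - (2 * (1 - bar a 2 x)) ^ 2 / 2
    rw [sub_self, inner_zero_right, depth_bar h (by decide), depth_bar h (by decide),
      depth_bar h (by decide), bar_vertex_self h, bar_vertex_ne h (by decide),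
      bar_vertex_ne h (by decide), bar_vertex_ne h (by decide)]
    have e : bar a 3 x = 1 - bar a 0 x - bar a 1 x - bar a 2 x := by linarith
    rw [e]; ring
  · show 1 / 2 * ((bar a 0 (a 3) - bar a 0 x) ^ 2 + (bar a 1 (a 3) - bar a 1 x) ^ 2 +
      (bar a 2 (a 3) - bar a 2 x) ^ 2 + (bar a 3 (a 3) - bar a 3 x) ^ 2) =
      2 * (⟪a 3 - x, a 3 - a 0⟫ ^ 2 + ⟪a 3 - x, a 3 - a 1⟫ ^ 2 + ⟪a 3 - x, a 3 - a 2⟫ ^ 2 +
        ⟪a 3 - x, a 3 - a 3⟫ ^ 2) - (2 * (1 - bar a 3 x)) ^ 2 / 2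
    rw [sub_self, inner_zero_right, depth_bar h (by decide), depth_bar h (by decide),
      depth_bar h (by decide), bar_vertex_self h, bar_vertex_ne h (by decide),
      bar_vertex_ne h (by decide), bar_vertex_ne h (by decide)]
    have e : bar a 3 x = 1 - bar a 0 x - bar a 1 x - bar a 2 x := by linarith
    rw [e]; ring

/-- `|a i - x| ≤ 1.2248 ∑ α_j` if all depths are nonnegative -/
theorem norm_le_depth (i : Fin 4) (x : E3) (hx : ∀ j, 0 ≤ ⟪a i - x, a i - a j⟫) :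
    ‖a i - x‖ ≤ 1.2248 * ∑ j, ⟪a i - x, a i - a j⟫ := by
  have h1 := norm_sq_depth h i x
  have h0 : 0 ≤ ∑ j, ⟪a i - x, a i - a j⟫ := Finset.sum_nonneg fun j _ => hx j
  have h2 : ∑ j, ⟪a i - x, a i - a j⟫ ^ 2 ≤ (∑ j, ⟪a i - x, a i - a j⟫) ^ 2 :=
    Finset.sum_sq_le_sq_sum_of_nonneg fun j _ => hx j
  refine abs_le_of_sq_le_sq' ?_ (by positivity) |>.2
  nlinarith

/-- a vector from the vertex `a i` paired with any vector: barycentric expansion -/
theorem inner_vertex_sub (i : Fin 4) (q z : E3) :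
    ⟪a i - q, z⟫ = ∑ j, bar a j q * ⟪a i - a j, z⟫ := by
  have hs := bar_sum h q
  have he := bar_expand h q
  have e1 : a i - q = bar a 0 q • (a i - a 0) + bar a 1 q • (a i - a 1) + bar a 2 q • (a i - a 2) +
      bar a 3 q • (a i - a 3) := by
    have e2 : ∀ j, a i - a j = al a i - al a j := fun j => by unfold al; abel
    have e3 : a i - q = al a i - (q - cen a) := by unfold al; abel
    rw [e2, e2, e2, e2, e3, he]
    have e4 : al a i = (bar a 0 q + bar a 1 q + bar a 2 q + bar a 3 q) • al a i := by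
      rw [hs, one_smul]
    conv_lhs => rw [e4]
    module
  rw [e1, inner_add_left, inner_add_left, inner_add_left, real_inner_smul_left,
    real_inner_smul_left, real_inner_smul_left, real_inner_smul_left, Fin.sum_univ_four]

/-- **closeness**: `Q_i(q) ≤ 2 ∑ b_j(q) α_j - |a i - c|²` as soon as `|q - c| ≤ 1` -/
theorem Qv_le_of_dist (i : Fin 4) {q c : E3} (hq : dist q c ≤ 1) :
    Qv a i q ≤ 2 * ∑ j, bar a j q * ⟪a i - c, a i - a j⟫ - ‖a i - c‖ ^ 2 := by
  have h1 : ‖q - c‖ ^ 2 ≤ 1 := by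
    rw [dist_eq_norm] at hq
    have := norm_nonneg (q - c)
    nlinarith
  have h2 := inner_vertex_sub h i q (a i - c)
  have h3 : ∑ j, bar a j q * ⟪a i - a j, a i - c⟫ = ∑ j, bar a j q * ⟪a i - c, a i - a j⟫ :=
    Finset.sum_congr rfl fun j _ => by rw [real_inner_comm]
  rw [h3] at h2
  unfold Qv
  have h4 : q - c = (q - a i) + (a i - c) := by abel
  have h5 : ‖q - c‖ ^ 2 = ‖q - a i‖ ^ 2 + 2 * ⟪q - a i, a i - c⟫ + ‖a i - c‖ ^ 2 := by
    rw [h4, norm_add_sq_real]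
  have h6 : ⟪q - a i, a i - c⟫ = -⟪a i - q, a i - c⟫ := by
    rw [← inner_neg_left, neg_sub]
  rw [h5, h6, h2] at h1
  linarith

/-- barycentric coordinates of a placed point are at most one -/
theorem bar_le_one {x : E3} (hx : Pl a x) (i : Fin 4) : bar a i x ≤ 1 := by
  have hp := (pl_iff h).1 hx
  have hs := bar_sum h x
  fin_cases i
  · show bar a 0 x ≤ 1
    have h1 := hp 0 1 (by decide)
    have h2 := hp 0 2 (by decide)
    have h3 := hp 0 3 (by decide)
    linarith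
  · show bar a 1 x ≤ 1
    have h1 := hp 1 0 (by decide)
    have h2 := hp 1 2 (by decide)
    have h3 := hp 1 3 (by decide)
    linarith
  · show bar a 2 x ≤ 1
    have h1 := hp 2 0 (by decide)
    have h2 := hp 2 1 (by decide)
    have h3 := hp 2 3 (by decide)
    linarith
  · show bar a 3 x ≤ 1
    have h1 := hp 3 0 (by decide)
    have h2 := hp 3 1 (by decide)
    have h3 := hp 3 2 (by decide)
    linarith

/-- barycentric coordinates of a placed point are at least `-1/2` -/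
theorem neg_half_le_bar {x : E3} (hx : Pl a x) (i : Fin 4) : -1 / 2 ≤ bar a i x := by
  have hp := (pl_iff h).1 hx
  have hs := bar_sum h x
  fin_cases i
  · show -1 / 2 ≤ bar a 0 x
    have h1 := hp 1 0 (by decide)
    have h2 := hp 2 0 (by decide)
    have h3 := hp 3 0 (by decide)
    linarith
  · show -1 / 2 ≤ bar a 1 x
    have h1 := hp 0 1 (by decide)
    have h2 := hp 2 1 (by decide)
    have h3 := hp 3 1 (by decide)
    linarith
  · show -1 / 2 ≤ bar a 2 x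
    have h1 := hp 0 2 (by decide)
    have h2 := hp 1 2 (by decide)
    have h3 := hp 3 2 (by decide)
    linarith
  · show -1 / 2 ≤ bar a 3 x
    have h1 := hp 0 3 (by decide)
    have h2 := hp 1 3 (by decide)
    have h3 := hp 2 3 (by decide)
    linarith

end gram

namespace Placed
variable {K : Set E3} {a c : Fin 4 → E3} (P : Placed K a c)
include P

theorem gram : Gram4 (al a) := gram_of_dist P.reg

theorem bar_le {x : E3} (hx : x ∈ K) (i : Fin 4) : bar a i x ≤ 1 := bar_le_one P.gram (P.pl x hx) i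

theorem bar_ge {x : E3} (hx : x ∈ K) (i : Fin 4) : -1 / 2 ≤ bar a i x :=
  neg_half_le_bar P.gram (P.pl x hx) i

/-- every point of `K` has nonnegative depths -/
theorem depth_nonneg {x : E3} (hx : x ∈ K) (i j : Fin 4) : 0 ≤ ⟪a i - x, a i - a j⟫ := by
  by_cases hij : i = j
  · subst hij; simp
  · have := P.pl x hx i j hij
    rw [inner_sub_left]
    linarith

theorem norm_le (i : Fin 4) : ‖a i - c i‖ ≤ 1.2248 * ∑ j, ⟪a i - c i, a i - a j⟫ :=
  norm_le_depth P.gram i (c i) (P.nonneg i)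

/-- `∑ |a i - c i| ≤ .1881` -/
theorem sum_norm_le : ∑ i, ‖a i - c i‖ ≤ 0.1881 := by
  have h1 : ∑ i, ‖a i - c i‖ ≤ ∑ i, 1.2248 * ∑ j, ⟪a i - c i, a i - a j⟫ :=
    Finset.sum_le_sum fun i _ => P.norm_le i
  rw [← Finset.mul_sum] at h1
  have h2 := P.sum_le
  nlinarith

theorem norm_le' (i : Fin 4) : ‖a i - c i‖ ≤ 0.1881 :=
  (Finset.single_le_sum (f := fun i => ‖a i - c i‖) (fun i _ => norm_nonneg _)
    (Finset.mem_univ i)).trans P.sum_norm_le

variable (hK : IsCompact K) (hw : Width1 K)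
include hK hw

/-- **closeness on `K`** -/
theorem Qv_le {q : E3} (hq : q ∈ K) (i : Fin 4) :
    Qv a i q ≤ 2 * ∑ j, bar a j q * ⟪a i - c i, a i - a j⟫ - ‖a i - c i‖ ^ 2 :=
  Qv_le_of_dist P.gram i (diam_le hK hw q hq (c i) (P.mem i))

/-- crude form: `Q_i ≤ 2 ∑ α_ij - |x_i|²` -/
theorem Qv_le' {q : E3} (hq : q ∈ K) (i : Fin 4) :
    Qv a i q ≤ 2 * ∑ j, ⟪a i - c i, a i - a j⟫ - ‖a i - c i‖ ^ 2 := by
  refine (P.Qv_le hK hw hq i).trans ?_
  have : ∑ j, bar a j q * ⟪a i - c i, a i - a j⟫ ≤ ∑ j, ⟪a i - c i, a i - a j⟫ :=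
    Finset.sum_le_sum fun j _ => mul_le_of_le_one_left (P.nonneg i j) (P.bar_le hq j)
  linarith

/-- the sum of the (positive) excesses, at possibly different points -/
theorem sum_Qv_le {q : Fin 4 → E3} (hq : ∀ i, q i ∈ K) : ∑ i, Qv a i (q i) ≤ 0.307 := by
  have h1 : ∑ i, Qv a i (q i) ≤ ∑ i, 2 * ∑ j, ⟪a i - c i, a i - a j⟫ :=
    Finset.sum_le_sum fun i _ => by
      have h2 := P.Qv_le' hK hw (hq i) i
      have h3 := sq_nonneg ‖a i - c i‖
      linarith
  rw [← Finset.mul_sum] at h1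
  have := P.sum_le
  linarith

/-- `|q - a i| ≤ 1 + |a i - c i|` on `K` -/
theorem dist_le {q : E3} (hq : q ∈ K) (i : Fin 4) : dist q (a i) ≤ 1 + ‖a i - c i‖ := by
  have h1 := diam_le hK hw q hq (c i) (P.mem i)
  have h2 := dist_triangle q (c i) (a i)
  have h3 : dist (c i) (a i) = ‖a i - c i‖ := by rw [dist_comm, dist_eq_norm]
  linarith

/-- the contact points: for every edge there is `d ⊥ a i - a j` with `a i + d, a j + d ∈ K` -/
theorem contact {i j : Fin 4} (hij : i ≠ j) :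
    ∃ d : E3, ⟪d, a i - a j⟫ = 0 ∧ a i + d ∈ K ∧ a j + d ∈ K := by
  have hne := hw.nonempty
  obtain ⟨y, hy, h1⟩ := supp_attained hK hne (a i - a j)
  obtain ⟨z, hz, h2⟩ := supp_attained hK hne (a j - a i)
  rw [P.sup i j hij] at h1
  rw [P.sup j i hij.symm] at h2
  have he : ‖a i - a j‖ = 1 := by rw [← dist_eq_norm]; exact P.reg i j hij
  have hd := diam_le hK hw y hy z hz
  rw [dist_eq_norm] at hd
  have h3 : ⟪y - z, a i - a j⟫ = 1 := by
    have e1 : ⟪z, a i - a j⟫ = -⟪z, a j - a i⟫ := by rw [← inner_neg_right, neg_sub]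
    have e2 : ⟪a j, a j - a i⟫ = -⟪a j, a i - a j⟫ := by rw [← inner_neg_right, neg_sub]
    have e3 : ⟪a i - a j, a i - a j⟫ = (1 : ℝ) := by
      rw [real_inner_self_eq_norm_sq, he]; norm_num
    rw [inner_sub_left] at e3 ⊢
    rw [e1, ← h2, ← h1, e2]
    linarith
  have h4 : y - z = a i - a j := by
    have h5 : ‖(y - z) - (a i - a j)‖ ^ 2 ≤ 0 := by
      rw [norm_sub_sq_real, h3, he]
      have := norm_nonneg (y - z)
      nlinarith
    have h6 : ‖(y - z) - (a i - a j)‖ = 0 := by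
      have := norm_nonneg ((y - z) - (a i - a j))
      nlinarith
    exact sub_eq_zero.1 (norm_eq_zero.1 h6)
  refine ⟨y - a i, ?_, ?_, ?_⟩
  · rw [inner_sub_left, ← h1]; ring
  · rwa [add_sub_cancel]
  · have : a j + (y - a i) = z := by
      have h7 : z = y - (a i - a j) := by rw [← h4]; abel
      rw [h7]; abel
    rwa [this]

/-- with the contact points: `|d + d_ij|² ≤ 2 y_j` for `q = a i - d ∈ K` -/
theorem contact_le {i j : Fin 4} (hij : i ≠ j) {d q : E3} (hd : ⟪d, a i - a j⟫ = 0)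
    (hdK : a j + d ∈ K) (hq : q ∈ K) :
    ‖(a i - q) + d‖ ^ 2 ≤ 2 * ⟪a i - q, a i - a j⟫ := by
  have he : ‖a i - a j‖ = 1 := by rw [← dist_eq_norm]; exact P.reg i j hij
  have h1 := diam_le hK hw q hq _ hdK
  rw [dist_eq_norm] at h1
  have h2 : q - (a j + d) = (a i - a j) - ((a i - q) + d) := by abel
  have h3 : ‖q - (a j + d)‖ ^ 2 = 1 - 2 * ⟪a i - q, a i - a j⟫ + ‖(a i - q) + d‖ ^ 2 := by
    rw [h2, norm_sub_sq_real, he, inner_add_right, real_inner_comm (a i - q),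
      real_inner_comm d, hd]
    ring
  have h4 := norm_nonneg (q - (a j + d))
  nlinarith

omit hK hw in
/-- `|d_ij|² = Q_j(a i + d_ij) = Q_i(a j + d_ij)` -/
theorem contact_sq {i j : Fin 4} (hij : i ≠ j) {d : E3} (hd : ⟪d, a i - a j⟫ = 0) :
    Qv a j (a i + d) = ‖d‖ ^ 2 ∧ Qv a i (a j + d) = ‖d‖ ^ 2 := by
  have he : ‖a i - a j‖ = 1 := by rw [← dist_eq_norm]; exact P.reg i j hij
  unfold Qv
  constructor
  · have h1 : a i + d - a j = (a i - a j) + d := by abel
    rw [h1, norm_add_sq_real, he, real_inner_comm d, hd]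
    ring
  · have h1 : a j + d - a i = d - (a i - a j) := by abel
    rw [h1, norm_sub_sq_real, he, hd]
    ring

end Placed

end Helper66.MEI
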